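import Pool.Agent.L7h55.TN.Stm

/-!
Project TN (helper55), parts SIZ, NZ, CIR, NUM (helper87)
-/

set_option autoImplicit false

namespace Pool.Agent.L7h87.TN

open Pool.Agent.L7h55.TN Finset

theorem s_SIZ : S_SIZ := by
  intro A B A' B' m hAB hm
  have h1 : (0 : ℤ) ≤ (A : ℤ) ^ (m + 1) := by positivity
  have h2 : (A : ℤ) ^ (m + 1) ≤ (B : ℤ) ^ (m + 1) := by
    exact_mod_cast Nat.pow_le_pow_left hAB (m + 1)
  have h3 : (0 : ℤ) ≤ (A : ℤ) ^ m * B := by positivity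
  have h4 : (A : ℤ) ^ m * B ≤ (B : ℤ) ^ (m + 1) := by
    rw [pow_succ]
    exact_mod_cast Nat.mul_le_mul_right B (Nat.pow_le_pow_left hAB m)
  have h5 : (0 : ℤ) ≤ A * (B : ℤ) ^ m := by positivity
  have h6 : A * (B : ℤ) ^ m ≤ (B : ℤ) ^ (m + 1) := by
    rw [pow_succ, mul_comm]
    exact_mod_cast Nat.mul_le_mul_left (B ^ m) hAB
  have hA' : (0 : ℤ) ≤ A' := by positivity
  have hB' : (0 : ℤ) ≤ B' := by positivity
  rw [abs_le]
  constructor
  · nlinarith [mul_nonneg hA' h1, mul_nonneg hB' h5, mul_nonneg hB' (sub_nonneg.2 h4)]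
  · nlinarith [mul_nonneg hA' (sub_nonneg.2 h2), mul_nonneg hB' (sub_nonneg.2 h6),
      mul_nonneg hB' h3, mul_nonneg hA' (h1.trans h2)]

/-- the reciprocal root -/
theorem S_inv (n : ℕ) (z : ℂ) (hz : z ≠ 0) : S n z⁻¹ * z ^ (n + 1) = - S n z := by
  unfold S
  have h1 : z⁻¹ ^ (n + 1) * z ^ (n + 1) = 1 := by
    rw [← mul_pow, inv_mul_cancel₀ hz, one_pow]
  have h2 : z⁻¹ ^ n * z ^ (n + 1) = z := by
    rw [pow_succ, ← mul_assoc, ← mul_pow, inv_mul_cancel₀ hz, one_pow, one_mul]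
  have h3 : z⁻¹ * z ^ (n + 1) = z ^ n := by
    rw [pow_succ, mul_comm, mul_assoc, mul_inv_cancel₀ hz, mul_one]
  linear_combination ((n : ℂ) - 1) * h1 - ((n : ℂ) + 1) * (h2 - h3)

theorem cir_aux (n : ℕ) (hn : 2 ≤ n) (z : ℂ) (h : S n z = 0) (hz : ‖z‖ < 1) : False := by
  have hz1 : z ≠ 1 := by
    rintro rfl
    simp at hz
  set r : ℝ := ‖z‖ with hr
  have hr0 : 0 ≤ r := norm_nonneg z
  have hE : (1 + z) * (1 - z ^ n) = n * (1 + z ^ n) * (1 - z) := by
    unfold S at h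
    linear_combination h
  -- real parts
  have key : (1 - Complex.normSq z) * Complex.normSq (1 - z ^ n) =
      n * (1 - Complex.normSq (z ^ n)) * Complex.normSq (1 - z) := by
    have e1 : ((1 + z) * (starRingEnd ℂ) (1 - z)) * ((1 - z ^ n) * (starRingEnd ℂ) (1 - z ^ n)) =
        n * ((1 + z ^ n) * (starRingEnd ℂ) (1 - z ^ n)) * ((1 - z) * (starRingEnd ℂ) (1 - z)) := by
      linear_combination (starRingEnd ℂ) (1 - z) * (starRingEnd ℂ) (1 - z ^ n) * hE
    rw [Complex.mul_conj, Complex.mul_conj] at e1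
    have e2 := congrArg Complex.re e1
    have e3 : ∀ w : ℂ, ((1 + w) * (starRingEnd ℂ) (1 - w)).re = 1 - Complex.normSq w := by
      intro w
      simp [Complex.normSq_apply]
      ring
    rw [Complex.re_mul_ofReal, Complex.re_mul_ofReal, e3, ← Complex.ofReal_natCast,
      Complex.re_ofReal_mul, e3] at e2
    exact e2
  have hP : (∑ k ∈ range n, z ^ k) * (1 - z) = 1 - z ^ n := by
    have := geom_sum_mul_neg z n
    simpa using this
  have hR : (∑ k ∈ range n, (r ^ 2) ^ k) * (1 - r ^ 2) = 1 - (r ^ 2) ^ n := geom_sum_mul_neg _ _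
  have hzn : Complex.normSq z = r ^ 2 := by rw [hr, Complex.sq_norm]
  have hwn : Complex.normSq (z ^ n) = (r ^ 2) ^ n := by rw [map_pow, hzn]
  rw [← hP, Complex.normSq_mul, hwn, ← hR, hzn] at key
  have h1z : 0 < Complex.normSq (1 - z) := Complex.normSq_pos.2 (sub_ne_zero.2 hz1.symm)
  have h1r : 0 < 1 - r ^ 2 := by nlinarith
  have key2 : Complex.normSq (∑ k ∈ range n, z ^ k) = n * ∑ k ∈ range n, (r ^ 2) ^ k := by
    have h3 : (1 - r ^ 2) * Complex.normSq (1 - z) ≠ 0 := (mul_pos h1r h1z).ne'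
    apply mul_left_cancel₀ h3
    linear_combination key
  -- Cauchy-Schwarz
  set s : ℝ := ∑ k ∈ range n, r ^ k with hs
  have hle : Complex.normSq (∑ k ∈ range n, z ^ k) ≤ s ^ 2 := by
    rw [← Complex.sq_norm]
    refine pow_le_pow_left₀ (norm_nonneg _) ?_ 2
    refine (norm_sum_le _ _).trans (le_of_eq ?_)
    rw [hs]
    exact sum_congr rfl fun k _ => by rw [norm_pow]
  have hsn : s < n := by
    have h4 : s < ∑ k ∈ range n, (1 : ℝ) := by
      refine sum_lt_sum (fun k _ => pow_le_one₀ hr0 hz.le) ⟨1, mem_range.2 (by omega), ?_⟩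
      simpa using hz
    simpa using h4
  have hvar : ∑ k ∈ range n, (n * r ^ k - s) ^ 2 = n * (n * ∑ k ∈ range n, (r ^ 2) ^ k - s ^ 2) := by
    have h5 : ∀ k ∈ range n, (n * r ^ k - s) ^ 2 = (n : ℝ) ^ 2 * (r ^ 2) ^ k - 2 * n * s * r ^ k + s ^ 2 := by
      intro k _
      rw [← pow_mul, mul_comm 2 k, pow_mul]
      ring
    rw [sum_congr rfl h5, sum_add_distrib, sum_sub_distrib, ← mul_sum, ← mul_sum, ← hs, sum_const,
      card_range, nsmul_eq_mul]
    ring
  have hpos : 0 < ∑ k ∈ range n, (n * r ^ k - s) ^ 2 := by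
    refine sum_pos' (fun k _ => sq_nonneg _) ⟨0, mem_range.2 (by omega), ?_⟩
    have : 0 < n * r ^ 0 - s := by simpa using hsn
    positivity
  have hn0 : (0 : ℝ) < n := by positivity
  rw [hvar] at hpos
  have h6 : 0 < n * ∑ k ∈ range n, (r ^ 2) ^ k - s ^ 2 := by
    by_contra hcon
    push Not at hcon
    exact absurd hpos (not_lt.2 (mul_nonpos_of_nonneg_of_nonpos hn0.le hcon))
  rw [← key2] at h6
  linarith

theorem s_CIR : S_CIR := by
  intro n hn z h
  rcases lt_trichotomy ‖z‖ 1 with h1 | h1 | h1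
  · exact (cir_aux n hn z h h1).elim
  · exact h1
  · exfalso
    have hz : z ≠ 0 := by
      rintro rfl
      simp at h1
      linarith
    have h2 : S n z⁻¹ = 0 := by
      have := S_inv n z hz
      rw [h, neg_zero] at this
      exact (mul_eq_zero.1 this).resolve_right (pow_ne_zero _ hz)
    refine cir_aux n hn z⁻¹ h2 ?_
    rw [norm_inv]
    exact inv_lt_one_of_one_lt₀ h1

theorem s_NZ (hCIR : S_CIR) : S_NZ := by
  intro A B A' B' m g hm hA hAB hg hA' hB' h0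
  have hB : (B : ℂ) ≠ 0 := by
    have : B ≠ 0 := by omega
    exact_mod_cast this
  have h1 : ((A' : ℂ)) * ((A : ℂ) ^ (m + 1) - (B : ℂ) ^ (m + 1))
    - B' * ((A : ℂ) ^ m * B - A * (B : ℂ) ^ m) = 0 := by exact_mod_cast h0
  have hgA : (g : ℂ) * A' = m - 1 := by
    have h2 : g * A' + 1 = m := by omega
    have h3 : ((g * A' + 1 : ℕ) : ℂ) = (m : ℂ) := by rw [h2]
    push_cast at h3
    linear_combination h3
  have hgB : (g : ℂ) * B' = m + 1 := by exact_mod_cast hB'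
  have h4 : S m ((A : ℂ) / B) = 0 := by
    have h5 : S m ((A : ℂ) / B) * (B : ℂ) ^ (m + 1) = 0 := by
      unfold S
      have e1 : ((A : ℂ) / B) ^ (m + 1) * (B : ℂ) ^ (m + 1) = (A : ℂ) ^ (m + 1) := by
        rw [← mul_pow, div_mul_cancel₀ _ hB]
      have e2 : ((A : ℂ) / B) ^ m * (B : ℂ) ^ (m + 1) = (A : ℂ) ^ m * B := by
        rw [pow_succ, ← mul_assoc, ← mul_pow, div_mul_cancel₀ _ hB]
      have e3 : ((A : ℂ) / B) * (B : ℂ) ^ (m + 1) = A * (B : ℂ) ^ m := by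
        rw [pow_succ, mul_comm ((B : ℂ) ^ m) B, ← mul_assoc, div_mul_cancel₀ _ hB]
      linear_combination ((m : ℂ) - 1) * e1 - ((m : ℂ) + 1) * (e2 - e3) + (g : ℂ) * h1
        - ((A : ℂ) ^ (m + 1) - (B : ℂ) ^ (m + 1)) * hgA + ((A : ℂ) ^ m * B - A * (B : ℂ) ^ m) * hgB
    exact (mul_eq_zero.1 h5).resolve_right (pow_ne_zero _ hB)
  have h6 := hCIR m hm _ h4
  rw [norm_div, Complex.norm_natCast, Complex.norm_natCast] at h6
  have hBr : (0 : ℝ) < B := by
    have : 0 < B := by omega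
    exact_mod_cast this
  rw [div_eq_one_iff_eq hBr.ne'] at h6
  have : A = B := by exact_mod_cast h6
  omega

end Pool.Agent.L7h87.TN
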