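import Pool.Agent.L7h55.TN.Stm

/-!
Project TN (helper55), parts VAL, NUM (helper87)
-/

set_option autoImplicit false

namespace Pool.Agent.L7h87.TN

open Pool.Agent.L7h55.TN

theorem s_VAL : S_VAL := by
  intro z hz0 hz
  have hc : IsIntegrallyClosedIn (integralClosure ℤ ℂ).toSubring ℂ :=
    inferInstanceAs (IsIntegrallyClosedIn (integralClosure ℤ ℂ) ℂ)
  have hzR : z ∉ (integralClosure ℤ ℂ).toSubring := fun h => hz h
  obtain ⟨V, -, hV⟩ := Subring.exists_le_valuationSubring_of_isIntegrallyClosedIn hzR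
  refine ⟨V, ?_⟩
  rw [map_inv₀]
  have h1 : 1 < V.valuation z := by
    rw [← not_le, V.valuation_le_one_iff]
    exact hV
  exact inv_lt_one_of_one_lt₀ h1

theorem num_step (m N : ℕ) (h : 2 * (m + 1) ≤ N + 1) : ((N : ℝ) + 1) ^ (m + 1) ≤ 3 * (N : ℝ) ^ (m + 1) := by
  have hN : (0 : ℝ) < (N : ℝ) + 1 := by positivity
  have h2 : (2 : ℝ) * (m + 1) ≤ N + 1 := by exact_mod_cast h
  have hx : ((m : ℝ) + 1) / (N + 1) ≤ 1 / 2 := by
    rw [div_le_div_iff₀ hN (by norm_num)]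
    linarith
  have hb := one_add_mul_le_pow (a := -(1 / ((N : ℝ) + 1))) (by
    have : 1 / ((N : ℝ) + 1) ≤ 1 := by
      rw [div_le_one hN]
      have : (0 : ℝ) ≤ N := by positivity
      linarith
    linarith) (m + 1)
  have h3 : (1 : ℝ) + -(1 / ((N : ℝ) + 1)) = N / (N + 1) := by
    field_simp
    ring
  rw [h3, div_pow] at hb
  have h4 : (1 : ℝ) / 2 ≤ (N : ℝ) ^ (m + 1) / (N + 1) ^ (m + 1) := by
    refine le_trans ?_ hb
    push_cast
    have : ((m : ℝ) + 1) * -(1 / ((N : ℝ) + 1)) = -((m + 1) / (N + 1)) := by ring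
    rw [this]
    linarith
  rw [div_le_div_iff₀ (by norm_num) (by positivity)] at h4
  have : (0 : ℝ) ≤ (N : ℝ) ^ (m + 1) := by positivity
  linarith

theorem num_pow (m : ℕ) (hm : 2 ≤ m) : 2 * m < 3 ^ m ∧ (m + 1) ^ 2 ≤ 3 ^ m := by
  induction m, hm using Nat.le_induction with
  | base => norm_num
  | succ k hk ih =>
    obtain ⟨h1, h2⟩ := ih
    rw [pow_succ]
    constructor
    · omega
    · nlinarith

theorem s_NUM : S_NUM := by
  intro m n hm hn
  induction n, hn using Nat.le_induction with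
  | base =>
    obtain ⟨h1, h2⟩ := num_pow m hm
    have h3 : 3 ^ m + m + 1 ≤ 3 ^ (m + 1) := by
      rw [pow_succ]
      omega
    calc 2 * m * (3 ^ m + m + 1) ^ (m + 1) ≤ 2 * m * (3 ^ (m + 1)) ^ (m + 1) :=
          Nat.mul_le_mul_left _ (Nat.pow_le_pow_left h3 _)
      _ = 2 * m * 3 ^ ((m + 1) ^ 2) := by rw [← pow_mul, sq]
      _ < 3 ^ m * 3 ^ ((m + 1) ^ 2) := Nat.mul_lt_mul_of_pos_right h1 (by positivity)
      _ ≤ 3 ^ m * 3 ^ (3 ^ m) := Nat.mul_le_mul_left _ (Nat.pow_le_pow_right (by norm_num) h2)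
      _ = 3 ^ (3 ^ m + m) := by rw [← pow_add, add_comm]
  | succ k hk ih =>
    have h1 : 2 * (m + 1) ≤ (k + 1) + 1 := by
      have := (num_pow m hm).1
      omega
    have h2 := num_step m (k + 1) h1
    have h3 : (k + 1 + 1) ^ (m + 1) ≤ 3 * (k + 1) ^ (m + 1) := by exact_mod_cast h2
    calc 2 * m * (k + 1 + 1) ^ (m + 1) ≤ 2 * m * (3 * (k + 1) ^ (m + 1)) := Nat.mul_le_mul_left _ h3
      _ = 3 * (2 * m * (k + 1) ^ (m + 1)) := by ring
      _ < 3 * 3 ^ k := by omega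
      _ = 3 ^ (k + 1) := by rw [pow_succ]; ring

end Pool.Agent.L7h87.TN
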